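import Mathlib

/-!
# Vanishing cycles exclude Tate classes: definitions

Here `K` is a number field, `L` is an algebraic closure of `K`, `𝓞 L` is the ring of algebraic
integers, and `C` is a field with a nonarchimedean absolute value, the field `ℂ_[p]`.
-/

set_option autoImplicit false

namespace Pool.Agent.Cycles

open NumberField Polynomial Matrix

variable {K L : Type} [Field K] [Field L] [Algebra K L]

/-- The matrix `ρ(j)(σ)` of the twist of `ρ` by the `j`-th power of the `ℓ`-adic cyclotomic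
character. -/
noncomputable def twist (ℓ : ℕ) [Fact ℓ.Prime] {k : Type} [Field k] [Algebra ℚ_[ℓ] k] {n : Type}
    [Fintype n] [DecidableEq n] (ρ : (L ≃ₐ[K] L) →* Matrix n n k) (j : ℕ) (σ : L ≃ₐ[K] L) :
    Matrix n n k :=
  algebraMap ℚ_[ℓ] k (algebraMap ℤ_[ℓ] ℚ_[ℓ] (cyclotomicCharacter L ℓ (σ : L ≃+* L))) ^ j • ρ σ

/-- All matrices `X(g)` of size `y + m` have integral entries, the entries of their lower left
blocks (of size `m × y`) are divisible by `lam`, and their upper left blocks (of size `y × y`) are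
congruent to the identity modulo `lam`: `X(g) = (1 + lam a, b; lam c, d)` with integral `a`, `b`,
`c`, `d`. -/
def TwoLattices {G C : Type} [NormedField C] {y m : ℕ}
    (X : G → Matrix (Fin y ⊕ Fin m) (Fin y ⊕ Fin m) C) (lam : C) : Prop :=
  ∀ g, (∀ i j, ‖X g i j‖ ≤ 1) ∧ (∀ i j, ‖(X g).toBlocks₂₁ i j‖ ≤ ‖lam‖) ∧
    ∀ i j, ‖((X g).toBlocks₁₁ - 1) i j‖ ≤ ‖lam‖

/-- The element `s` acts by the Picard–Lefschetz formula to first order in `lam`, with the vanishing
cycle `v`, for the bilinear form `Q`: `X(s) = 1 + lam (A, B; C, D)`, where `A` (of size `y × y`),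
`B`, `C`, `D` are integral, `C` is congruent to zero and `A x` is congruent to `Q(v, x) v` for all
integral vectors `x`, modulo the maximal ideal. -/
def PicardLefschetz {G C : Type} [NormedField C] {y m : ℕ}
    (X : G → Matrix (Fin y ⊕ Fin m) (Fin y ⊕ Fin m) C) (lam : C) (Q : Matrix (Fin y) (Fin y) C)
    (s : G) (v : Fin y → C) : Prop :=
  ∃ N : Matrix (Fin y ⊕ Fin m) (Fin y ⊕ Fin m) C, X s = 1 + lam • N ∧ (∀ i k, ‖N i k‖ ≤ 1) ∧
    (∀ i k, ‖N.toBlocks₂₁ i k‖ < 1) ∧ ∀ x : Fin y → C, (∀ i, ‖x i‖ ≤ 1) →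
      ∀ i, ‖(N.toBlocks₁₁ *ᵥ x - (v ⬝ᵥ (Q *ᵥ x)) • v) i‖ < 1

/-- There are a symmetric bilinear form `Q` on `O ^ y`, `O` the ring of integers of `C`, whose
determinant is a unit, finitely many elements `s_i` and vectors `v_i` of `O ^ y` such that each `s_i`
acts by the Picard–Lefschetz formula with the vanishing cycle `v_i`, the `v_i` span `O ^ y` modulo
the maximal ideal, and the graph with the vertices `v_i`, in which `v_i` and `v_k` are joined if
`Q(v_i, v_k)` is a unit, is connected. -/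
def VanishingCycles {G C : Type} [NormedField C] {y m : ℕ}
    (X : G → Matrix (Fin y ⊕ Fin m) (Fin y ⊕ Fin m) C) (lam : C) : Prop :=
  ∃ (Q : Matrix (Fin y) (Fin y) C) (r : ℕ) (s : Fin r → G) (v : Fin r → Fin y → C),
    (Qᵀ = Q ∧ (∀ a b, ‖Q a b‖ ≤ 1) ∧ ‖Q.det‖ = 1) ∧ (∀ i a, ‖v i a‖ ≤ 1) ∧
      (∀ i, PicardLefschetz X lam Q (s i) (v i)) ∧
      (∀ x : Fin y → C, (∀ a, ‖x a‖ ≤ 1) → ∃ c : Fin r → C, (∀ i, ‖c i‖ ≤ 1) ∧
        ∀ a, ‖(x - ∑ i, c i • v i) a‖ < 1) ∧
      ∀ J : Set (Fin r), J.Nonempty → Jᶜ.Nonempty → ∃ i ∈ J, ∃ k ∈ Jᶜ, ‖v i ⬝ᵥ (Q *ᵥ v k)‖ = 1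

/-- `x` is a root of unity of degree at most `n` over `E`. -/
def SmallRoot {E C : Type} [Field E] [Field C] (i : E →+* C) (n : ℕ) (x : C) : Prop :=
  (∃ r : ℕ, 0 < r ∧ x ^ r = 1) ∧ ∃ f : E[X], f ≠ 0 ∧ f.natDegree ≤ n ∧ (f.map i).IsRoot x

/-- The representations `R` and `ρ` of the Galois group of `K` over the fields `C` and `k` are
compatible over the field `E`, which is embedded in `C` by `i` and in `k` by `i'`: for almost all
primes `q`, all prime ideals `𝔓` of the ring of algebraic integers above `q` and all elements `σ` of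
the Galois group that induce `x ↦ x ^ q` modulo `𝔓`, the characteristic polynomials of `R(σ⁻¹)` and
`ρ(σ⁻¹)` are the images of one polynomial over `E`. -/
def Compatible {E C k : Type} [Field E] [Field C] [Field k] (i : E →+* C) (i' : E →+* k)
    {n d : Type} [Fintype n] [DecidableEq n] [Fintype d] [DecidableEq d]
    (R : (L ≃ₐ[K] L) →* Matrix n n C) (ρ : (L ≃ₐ[K] L) →* Matrix d d k) : Prop :=
  ∃ B : Finset ℕ, ∀ q : ℕ, q.Prime → q ∉ B → ∀ 𝔓 : Ideal (𝓞 L), 𝔓.IsPrime →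
    (q : 𝓞 L) ∈ 𝔓 → ∀ σ : L ≃ₐ[K] L, (∀ x y : 𝓞 L, (y : L) = σ x → y - x ^ q ∈ 𝔓) →
      ∃ f : E[X], (R σ⁻¹).charpoly = f.map i ∧ (ρ σ⁻¹).charpoly = f.map i'

/-- No open subgroup `H` acts trivially on a nonzero subquotient `W₂ / W₁` of the space of column
vectors, on which the elements `σ` of the group act by the matrices `X(σ)`. -/
def NoTateClasses {G k : Type} [Group G] [TopologicalSpace G] [Field k] {d : ℕ}
    (X : G → Matrix (Fin d) (Fin d) k) : Prop :=
  ∀ H : Subgroup G, IsOpen (H : Set G) → ∀ W₁ W₂ : Submodule k (Fin d → k), W₁ ≤ W₂ →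
    (∀ σ ∈ H, ∀ x ∈ W₂, X σ *ᵥ x - x ∈ W₁) → W₁ = W₂

end Pool.Agent.Cycles
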