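import Pool.Agent.Lib_helper88.VC.Group
import Pool.Agent.Lib_helper46.OS.MN
import Pool.Agent.Lib_helper46.AC.Defs

/-!
# Vanishing cycles exclude Tate classes: the theorem over the definitions of `AC/Defs`
-/

set_option autoImplicit false

namespace Pool.Agent.Cycles

open NumberField Pool.Agent.TT Pool.Agent.TB Pool.Agent.TU Pool.Agent.AC

theorem ac_main {K : Type} [Field K] [NumberField K] [Algebra K Qbar] {E : Type} [Field E] {p : ℕ}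
    [Fact p.Prime] (hp : p ≠ 2) (ip : E →+* ℂ_[p]) {y m : ℕ} (hy : y ≠ 1)
    (R : (Qbar ≃ₐ[K] Qbar) →* Matrix (Fin y ⊕ Fin m) (Fin y ⊕ Fin m) ℂ_[p]) (hR : Continuous R)
    (j : ℕ) (lam : ℂ_[p]) (hL0 : lam ≠ 0) (hL1 : ‖lam‖ < 1)
    (hL3 : ∀ (x : ℂ_[p]) (n : ℕ), 0 < n → x ^ n = 1 → ‖lam‖ ^ 3 ≠ ‖1 - x‖)
    (hL : TwoLattices (twist p R j) lam) (hV : VanishingCycles (twist p R j) lam)
    (g₀ : Qbar ≃ₐ[K] Qbar) (hg₀ : ∀ x : ℂ_[p], SmallRoot ip (y + m) x →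
      ‖((twist p R j g₀).toBlocks₂₂ - x • 1).det‖ = 1)
    {ℓ : ℕ} [Fact ℓ.Prime] (il : E →+* PadicAlgCl ℓ) {d : ℕ}
    (ρ : (Qbar ≃ₐ[K] Qbar) →* Matrix (Fin d) (Fin d) (PadicAlgCl ℓ))
    (hρ : Compatible ip il R ρ) : NoTateClasses (twist ℓ ρ j) := by
  let X : (Qbar ≃ₐ[K] Qbar) →* Matrix (Fin y ⊕ Fin m) (Fin y ⊕ Fin m) ℂ_[p] :=
    { toFun := fun g => cycC p g ^ j • R g
      map_one' := by rw [cycC_one, one_pow, one_smul, map_one]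
      map_mul' := fun g h => by rw [cycC_mul, mul_pow, map_mul, smul_mul_smul_comm] }
  have hd : DeepElement (fun g => cycC p g ^ j • R g) 0 :=
    Pool.Agent.VC.deep_of_cycles hp hy X lam hL0 hL1 hL3 (fun g => (hL g).1) hV
  intro H hH W₁ W₂ hW hT
  refine Submodule.eq_of_le_of_finrank_le hW
    (deep_main ip R hR j lam hL0 hL1 hL g₀ hg₀ 0 hd il (Pool.Agent.OS.mrep ρ) ?_ H hH W₁ W₂ hW ?_)
  · obtain ⟨B, hB⟩ := hρ
    refine ⟨B, fun q hq hqB 𝔓 h𝔓 hq𝔓 σ hσ => ?_⟩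
    obtain ⟨f, hf1, hf2⟩ := hB q hq hqB 𝔓 h𝔓 hq𝔓 σ hσ
    exact ⟨f, hf1, by rw [Pool.Agent.OS.mrep_charpoly, hf2]⟩
  · intro σ hσ x hx
    have h1 := hT σ hσ x hx
    have h2 : (twist ℓ ρ j σ).mulVec x = cyc ℓ σ ^ j • Pool.Agent.OS.mrep ρ σ x :=
      Matrix.smul_mulVec _ _ _
    rwa [h2] at h1

end Pool.Agent.Cycles
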